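import Pool.Agent.Lib.MP_0f9b7a_co.LowerFinal

/-!
# Lower bound for point-plane incidences without `K_{s,s}`, `s ≥ 3`

There is an absolute constant `c > 0` such that for all `s ≥ 3` and all `m, n ≥ 1` the maximum
number `f s m n` of incidences of `m` points and `n` planes in real three-dimensional space whose
incidence graph contains no `K_{s,s}` is at least
`c * (max (m^(3/5) n^(4/5)) (m^(4/5) n^(3/5)) + m + n)`.
-/

set_option autoImplicit false

namespace Pool.Agent.Results.MP_0f9b7a_co.LowerThree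

open Pool.Agent.Lib.MP_0f9b7a_co

/-- Lower bound for `s ≥ 3`. -/
theorem result : ∃ c : ℝ, 0 < c ∧ ∀ s m n : ℕ, 3 ≤ s → 1 ≤ m → 1 ≤ n →
    c * (max ((m : ℝ) ^ (3 / 5 : ℝ) * (n : ℝ) ^ (4 / 5 : ℝ))
      ((m : ℝ) ^ (4 / 5 : ℝ) * (n : ℝ) ^ (3 / 5 : ℝ)) + m + n) ≤ f s m n :=
  lower_three

end Pool.Agent.Results.MP_0f9b7a_co.LowerThree
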