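import Pool.Agent.Lib.MP_0f9b7a_co.LowerFinal
import Pool.Agent.Lib.MP_0f9b7a_co.Reduction

/-!
# The order of magnitude of the maximum number of incidences without `K_{2,2}`

For all `m, n ≥ 1` the maximum number `f 2 m n` of incidences of `m` points and `n` planes in real
three-dimensional space whose incidence graph contains no `K_{2,2}` is, up to absolute constant
factors, `min (m^(3/5) n^(4/5)) (m^(4/5) n^(3/5)) + m + n`.

The lower bound comes from points of a lattice and planes whose normal directions and whose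
projected points are taken from sparse sets. The upper bound comes from a random sample of the
dual planes and the vertical decomposition of its arrangement, for which we prove that the number
of cells is at most cubic and the Clarkson-Shor moment bound.
-/

set_option autoImplicit false

namespace Pool.Agent.Results.MP_0f9b7a_co.OrderTwo

open Pool.Agent.Lib.MP_0f9b7a_co

/-- The order of magnitude of `f 2 m n`. -/
theorem result : ∃ c C : ℝ, 0 < c ∧ 0 < C ∧ ∀ m n : ℕ, 1 ≤ m → 1 ≤ n →
    c * (min ((m : ℝ) ^ (3 / 5 : ℝ) * (n : ℝ) ^ (4 / 5 : ℝ))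
      ((m : ℝ) ^ (4 / 5 : ℝ) * (n : ℝ) ^ (3 / 5 : ℝ)) + m + n) ≤ f 2 m n ∧
    (f 2 m n : ℝ) ≤ C * (min ((m : ℝ) ^ (3 / 5 : ℝ) * (n : ℝ) ^ (4 / 5 : ℝ))
      ((m : ℝ) ^ (4 / 5 : ℝ) * (n : ℝ) ^ (3 / 5 : ℝ)) + m + n) := by
  obtain ⟨c, hc, h⟩ := lower_two
  exact ⟨c, 142860, hc, by norm_num, fun m n hm hn => ⟨h m n hm hn, upper_two m n hm hn⟩⟩

end Pool.Agent.Results.MP_0f9b7a_co.OrderTwo
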