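import Pool.Agent.Lib.MP_0f9b7a_co.Reduction

/-!
# Upper bound for point-plane incidences without `K_{s,s}`

There is an absolute constant `C` such that for all `s ≥ 2` and `m, n ≥ 1`, with `a = min m n` and
`b = max m n`, the maximum number `f s m n` of incidences of `m` points and `n` planes in real
three-dimensional space whose incidence graph contains no `K_{s,s}` is at most
`C s² (a^(3/5) b^(4/5) + a^(13/17) b^(12/17) + b)`; for `m = n` this is `O(n^(25/17))`.
-/

set_option autoImplicit false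

namespace Pool.Agent.Results.MP_0f9b7a_co.UpperAll

open Pool.Agent.Lib.MP_0f9b7a_co

/-- Upper bound for `f s m n`. -/
theorem result : ∃ C : ℝ, 0 < C ∧ ∀ s m n : ℕ, 2 ≤ s → 1 ≤ m → 1 ≤ n →
    (f s m n : ℝ) ≤ C * (s : ℝ) ^ 2 *
      ((min (m : ℝ) n) ^ (3 / 5 : ℝ) * (max (m : ℝ) n) ^ (4 / 5 : ℝ) +
        (min (m : ℝ) n) ^ (13 / 17 : ℝ) * (max (m : ℝ) n) ^ (12 / 17 : ℝ) +
        max (m : ℝ) n) :=
  ⟨400000000000, by norm_num, fun s m n hs hm hn => upper_all s m n hs hm hn⟩

end Pool.Agent.Results.MP_0f9b7a_co.UpperAll
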